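import Pool.Agent.Q227.TP.Pol
import Pool.Agent.NPC.Sat2
import Pool.Agent.H673R2.Search

/-!
# Foremost coverage of periodic temporal trees of maximum degree three is NP-hard

The definitions `Inst`, `Present`, `IsPeriodicTree`, `MaxDegLE`, `CoveredBy`, `IsCoverTime` are in
`Pool.Agent.Q227.TP.Defs`.

The reduction is from 3-satisfiability. The tree is a comb, a path with one pendant vertex at
every vertex, whose spine edges are always present; so between two slots the agent can go from any
leaf to any other leaf. The leaf of a variable can only be visited during one of two regions of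
time, for the whole region; the leaf of a clause can only be visited, in a short time, during the
regions of its literals.
-/

set_option autoImplicit false

namespace Pool.Agent.Results.MP_ce2681_lc.CombsNPHard

open Pool.Agent.NPC Pool.Agent.H673R2 Pool.Agent.Q227 Pool.Agent.Q227.TF Pool.Agent.Q227.TP

/-- Periodic temporal trees of maximum degree at most three. -/
def Sub3 (I : Inst) : Prop := IsPeriodicTree I ∧ MaxDegLE I 3

theorem correct {φ : F3} (h : Distinct3 φ ∧ Bounded3 φ ∧ φ ≠ []) :
    SAT3 φ ↔ CoveredBy (inst φ) (TT φ) := by
  rw [coveredBy_iff h.2.2]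
  exact ⟨cov_of_sat h.2.1 h.2.2, sat_of_cov h.2.1⟩

/-- Single-agent DMVP on periodic temporal trees, with the period as part of the input (the input
lists all snapshots), is `NP`-hard already on trees of maximum degree at most three; if `P ≠ NP`,
then no polynomial-time algorithm computes the cover time of these trees. -/
theorem result :
    NPHardOn (fun J : Inst × ℕ => Sub3 J.1) (fun J => CoveredBy J.1 J.2) ∧
    (PneNP → ¬ ∃ f : List Bool → List Bool, PolyTime f ∧
      ∀ I : Inst, Sub3 I → ∃ T, IsCoverTime I T ∧ f (bits I) = bits T) := by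
  constructor
  · exact npHardOn_of hardPr_SAT3b (f := fun φ => (inst φ, TT φ))
      (NPC.Poly.pair inst_poly TT_poly) (fun φ h => ⟨inst_tree h.2.1 h.2.2, inst_deg φ⟩)
      fun φ h => correct h
  · rintro hne ⟨f, hf, hT⟩
    refine no_poly_decider hardPr_SAT3b hne ⟨fun φ =>
      match unbits ℕ (f (bits (inst φ))) with
      | some T => decide (T ≤ TT φ)
      | none => false, ?_, fun φ h => ?_⟩
    · have h1 : NPC.Poly (fun φ : F3 => f (bits (inst φ))) :=
        (poly_of_polyTime hf (α := Inst)).comp inst_poly
      refine (NPC.Poly.optCases (o := fun φ : F3 => unbits ℕ (f (bits (inst φ))))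
        (g := fun _ => false) (h := fun φ T => decide (T ≤ TT φ))
        (poly_unbits.comp h1) (NPC.Poly.const _) ?_).congr ?_
      · exact NPC.Poly.decide_le (NPC.Poly.snd NPC.Poly.id)
          (TT_poly.comp (NPC.Poly.fst NPC.Poly.id))
      · intro φ
        cases unbits ℕ (f (bits (inst φ))) <;> rfl
    · obtain ⟨T, hT1, hT2⟩ := hT (inst φ) ⟨inst_tree h.2.1 h.2.2, inst_deg φ⟩
      rw [correct h]
      simp only [hT2, unbits_bits, decide_eq_true_eq]
      exact ⟨fun h1 => hT1.2 h1, fun h1 => CoveredBy.mono hT1.1 h1⟩

end Pool.Agent.Results.MP_ce2681_lc.CombsNPHard
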